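import Pool.Agent.K4H72.Til.Spec

namespace Pool.Agent.K4H72.Til

/-- T11: unique continuation on the triangular lattice -/
theorem lattice (f : ℤ × ℤ → ℂ) (hf : (Function.support f).Finite) (c : ℂ)
    (h : ∀ v, ∑ e ∈ six, (f (v + e) - f v) = c * f v) : f = 0 := by
  classical
  by_contra hne
  have hex : ∃ v, f v ≠ 0 := by
    by_contra h0
    push Not at h0
    exact hne (funext h0)
  obtain ⟨v0, hv0⟩ := hex
  have hS : hf.toFinset.Nonempty := ⟨v0, by simpa using hv0⟩
  obtain ⟨v, hv, hmax⟩ := hf.toFinset.exists_max_image (fun v => toLex v) hS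
  have hfv : f v ≠ 0 := by simpa using hv
  have hz : ∀ w : ℤ × ℤ, (v.1 < w.1 ∨ v.1 = w.1 ∧ v.2 < w.2) → f w = 0 := by
    intro w hw
    by_contra hw0
    have h1 := hmax w (by simpa using hw0)
    have h2 : toLex v < toLex w := by
      rw [Prod.Lex.toLex_lt_toLex]
      exact hw
    exact absurd h1 (not_le.mpr h2)
  have hq := h (v + (1, 0))
  have hs : ∑ e ∈ six, (f (v + (1, 0) + e) - f (v + (1, 0)))
      = (f (v + (1, 0) + (1, 0)) - f (v + (1, 0))) + ((f (v + (1, 0) + (-1, 0)) - f (v + (1, 0)))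
        + ((f (v + (1, 0) + (0, 1)) - f (v + (1, 0))) + ((f (v + (1, 0) + (0, -1)) - f (v + (1, 0)))
        + ((f (v + (1, 0) + (1, -1)) - f (v + (1, 0)))
          + (f (v + (1, 0) + (-1, 1)) - f (v + (1, 0))))))) := by
    unfold six
    rw [Finset.sum_insert (by decide), Finset.sum_insert (by decide), Finset.sum_insert (by decide),
      Finset.sum_insert (by decide), Finset.sum_insert (by decide), Finset.sum_singleton]
  rw [hs] at hq
  have e0 : f (v + (1, 0)) = 0 := hz _ (by left; simp)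
  have e1 : f (v + (1, 0) + (1, 0)) = 0 := hz _ (by left; simp)
  have e2 : f (v + (1, 0) + (0, 1)) = 0 := hz _ (by left; simp)
  have e3 : f (v + (1, 0) + (0, -1)) = 0 := hz _ (by left; simp)
  have e4 : f (v + (1, 0) + (1, -1)) = 0 := hz _ (by left; simp)
  have e5 : f (v + (1, 0) + (-1, 1)) = 0 := hz _ (by right; simp)
  have e6 : v + (1, 0) + (-1, 0) = v := by
    ext <;> simp
  rw [e0, e1, e2, e3, e4, e5, e6] at hq
  apply hfv
  simpa using hq

end Pool.Agent.K4H72.Til
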