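import Pool.Agent.K4H72.Til.Spec

open Set

namespace Pool.Agent.K4H72.Til
namespace D37

theorem E_add' (v w : ℤ × ℤ) : E (v + w) = E v + E w := by
  unfold E
  rw [Prod.fst_add, Prod.snd_add]
  push_cast
  ring

theorem E_sub' (v w : ℤ × ℤ) : E (v - w) = E v - E w := by
  unfold E
  rw [Prod.fst_sub, Prod.snd_sub]
  push_cast
  ring

theorem E_zero' : E 0 = 0 := by
  unfold E
  simp

/-- the displacement -/
noncomputable def u (Φ : ℂ → ℤ × ℤ) (M : ℝ) (p : ℂ) : ℂ := (M : ℂ) * p - E (Φ p)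

/-- the points with image near `v` -/
def NN (P : Set ℂ) (D : ℝ) (Φ : ℂ → ℤ × ℤ) (M : ℝ) (v : ℤ × ℤ) : Set ℂ :=
  {p | p ∈ P ∧ ‖E (Φ p - v)‖ ≤ M * D}

variable {P : Set ℂ} {D : ℝ} {Φ : ℂ → ℤ × ℤ} {M η : ℝ}

theorem dist_le (hD : 0 < D) (hM : 1 ≤ M) (_hη0 : 0 ≤ η) (hη : η ≤ D / 8)
    (hlip : ∀ p ∈ P, ∀ q ∈ P, ‖u Φ M p - u Φ M q‖ ≤ η * (1 + 4 * ‖p - q‖ / D))
    {v w : ℤ × ℤ} {p q : ℂ} (hp : p ∈ NN P D Φ M v) (hq : q ∈ NN P D Φ M w) :
    ‖p - q‖ ≤ 6 * D + 2 * ‖E (v - w)‖ := by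
  have h0 := hlip p hp.1 q hq.1
  set r := ‖p - q‖ with hr
  have hr0 : 0 ≤ r := norm_nonneg _
  set e := ‖E (v - w)‖ with he
  have he0 : 0 ≤ e := norm_nonneg _
  have h1 : M * r ≤ ‖u Φ M p - u Φ M q‖ + M * D + e + M * D := by
    have hid : (M : ℂ) * (p - q) = (u Φ M p - u Φ M q) + E (Φ p - v) + E (v - w) - E (Φ q - w) := by
      unfold u
      rw [E_sub', E_sub', E_sub']
      ring
    have hn : M * r = ‖(M : ℂ) * (p - q)‖ := by
      rw [norm_mul, Complex.norm_real, Real.norm_of_nonneg (by linarith)]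
    rw [hn, hid]
    calc ‖(u Φ M p - u Φ M q) + E (Φ p - v) + E (v - w) - E (Φ q - w)‖
        ≤ ‖(u Φ M p - u Φ M q) + E (Φ p - v) + E (v - w)‖ + ‖E (Φ q - w)‖ := norm_sub_le _ _
      _ ≤ (‖(u Φ M p - u Φ M q) + E (Φ p - v)‖ + ‖E (v - w)‖) + ‖E (Φ q - w)‖ := by
          gcongr; exact norm_add_le _ _
      _ ≤ ((‖u Φ M p - u Φ M q‖ + ‖E (Φ p - v)‖) + ‖E (v - w)‖) + ‖E (Φ q - w)‖ := by
          gcongr; exact norm_add_le _ _
      _ ≤ ‖u Φ M p - u Φ M q‖ + M * D + e + M * D := by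
          have := hp.2
          have := hq.2
          linarith
  have h2 : η * (1 + 4 * r / D) ≤ D / 8 + r / 2 := by
    have hx : 0 ≤ 1 + 4 * r / D := by positivity
    calc η * (1 + 4 * r / D) ≤ (D / 8) * (1 + 4 * r / D) := by gcongr
      _ = D / 8 + r / 2 := by field_simp; ring
  have h3 : M * (r / 2) ≤ M * (3 * D + e) := by
    have h4 : r / 2 ≤ M * (r / 2) := by nlinarith
    have h5 : D / 8 ≤ M * D := by nlinarith
    have h6 : e ≤ M * e := by nlinarith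
    nlinarith
  have h7 : r / 2 ≤ 3 * D + e := le_of_mul_le_mul_left h3 (by linarith)
  linarith

theorem NN_finite (hD : 0 < D)
    (hfin : {d : ℂ | ∃ p ∈ P, ∃ p' ∈ P, d = p - p' ∧ ‖d‖ ≤ 8 * D}.Finite)
    (hM : 1 ≤ M) (hη0 : 0 ≤ η) (hη : η ≤ D / 8)
    (hlip : ∀ p ∈ P, ∀ q ∈ P, ‖u Φ M p - u Φ M q‖ ≤ η * (1 + 4 * ‖p - q‖ / D))
    (v : ℤ × ℤ) : (NN P D Φ M v).Finite := by
  rcases (NN P D Φ M v).eq_empty_or_nonempty with h | ⟨p1, hp1⟩
  · rw [h]; exact Set.finite_empty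
  · refine (hfin.image (fun d => p1 + d)).subset ?_
    intro p hp
    refine ⟨p - p1, ⟨p, hp.1, p1, hp1.1, rfl, ?_⟩, by simp⟩
    have := dist_le hD hM hη0 hη hlip hp hp1
    rw [sub_self, E_zero', norm_zero] at this
    linarith

theorem core (hD : 0 < D) (hdense : ∀ x : ℂ, ∃ p ∈ P, ‖x - p‖ ≤ D / 4)
    (hfin : {d : ℂ | ∃ p ∈ P, ∃ p' ∈ P, d = p - p' ∧ ‖d‖ ≤ 8 * D}.Finite)
    (hM : 1 ≤ M) (hη0 : 0 ≤ η) (hη : η ≤ D / 8) (hη2 : η * (25 + 8 / D) ≤ 1 / 20)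
    (hΦ : ∀ p ∈ P, ∀ q ∈ P, ∀ p' ∈ P, ∀ q' ∈ P, p - q = p' - q' → Φ p - Φ q = Φ p' - Φ q')
    (hlip : ∀ p ∈ P, ∀ q ∈ P, ‖u Φ M p - u Φ M q‖ ≤ η * (1 + 4 * ‖p - q‖ / D))
    (hnear : ∀ v : ℤ × ℤ, ∃ p ∈ P, ‖E (Φ p - v)‖ ≤ M * D)
    (hE : ∀ v : ℤ × ℤ, v ≠ 0 → 1 ≤ ‖E v‖)
    (c : Set ℂ → ℂ) (hc : ∀ A : Set ℂ, A.Finite → A.Nonempty → c A ∈ A)
    (hc' : ∀ (A : Set ℂ) (t : ℂ), A.Finite → A.Nonempty → c ((fun z => z + t) '' A) = c A + t) :
    ∃ (h : ℝ) (g : ℤ × ℤ → ℂ), Def1 h g ∧ ∀ R2 : ℝ, ∃ R : ℝ, ∀ x y : ℂ,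
      (∀ p : ℂ, ‖p‖ < R → (x + p ∈ P ↔ y + p ∈ P)) →
        ∃ τ : ℤ × ℤ, ∀ v, ‖g v - x‖ ≤ R2 → g (v + τ) = g v + (y - x) := by
  have hM0 : 0 < M := by linarith
  have hMC : (M : ℂ) ≠ 0 := by exact_mod_cast hM0.ne'
  have hNf := fun v => NN_finite (Φ := Φ) hD hfin hM hη0 hη hlip v
  have hNn : ∀ v, (NN P D Φ M v).Nonempty := fun v => by
    obtain ⟨p, hp, hp2⟩ := hnear v
    exact ⟨p, hp, hp2⟩
  have hcm : ∀ v, ∃ p ∈ NN P D Φ M v, u Φ M p = c (u Φ M '' NN P D Φ M v) := fun v => by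
    have := hc (u Φ M '' NN P D Φ M v) ((hNf v).image _) ((hNn v).image _)
    exact this
  refine ⟨1 / M, fun v => (E v + c (u Φ M '' NN P D Φ M v)) / M, ⟨by positivity, ?_⟩, ?_⟩
  · intro v w
    obtain ⟨p, hp, hpc⟩ := hcm v
    obtain ⟨q, hq, hqc⟩ := hcm w
    have hid : (E v + c (u Φ M '' NN P D Φ M v)) / (M : ℂ) - (E w + c (u Φ M '' NN P D Φ M w)) / M
        - ((1 / M : ℝ) : ℂ) * E (v - w) = ((1 / M : ℝ) : ℂ) * (c (u Φ M '' NN P D Φ M v)
          - c (u Φ M '' NN P D Φ M w)) := by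
      rw [E_sub']
      push_cast
      field_simp
      ring
    simp only [hid, norm_mul, Complex.norm_real, Real.norm_of_nonneg (show 0 ≤ 1 / M by positivity)]
    by_cases hvw : v = w
    · subst hvw
      rw [sub_self, norm_zero, mul_zero]
      positivity
    · have he1 := hE (v - w) (sub_ne_zero.mpr hvw)
      have h1 := dist_le hD hM hη0 hη hlip hp hq
      have h2 := hlip p hp.1 q hq.1
      rw [← hpc, ← hqc]
      set e := ‖E (v - w)‖ with he
      set r := ‖p - q‖ with hr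
      have h3 : 1 + 4 * r / D ≤ (25 + 8 / D) * e := by
        have h4 : 4 * r / D ≤ 4 * (6 * D + 2 * e) / D := by gcongr
        have h5 : 4 * (6 * D + 2 * e) / D = 24 + 8 / D * e := by field_simp; ring
        rw [h5] at h4
        nlinarith
      have h6 : ‖u Φ M p - u Φ M q‖ ≤ 1 / 20 * e := by
        calc ‖u Φ M p - u Φ M q‖ ≤ η * (1 + 4 * r / D) := h2
          _ ≤ η * ((25 + 8 / D) * e) := by gcongr
          _ = η * (25 + 8 / D) * e := by ring
          _ ≤ 1 / 20 * e := by gcongr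
      have h7 : 0 < 1 / M := by positivity
      nlinarith
  · intro R2
    refine ⟨|R2| + 20 * D, ?_⟩
    intro x y hxy
    obtain ⟨p1, hp1, hp1x⟩ := hdense x
    have hfw : ∀ q ∈ P, ‖q - x‖ < |R2| + 20 * D → y + (q - x) ∈ P := by
      intro q hq hqx
      have := (hxy (q - x) hqx).1 (by rw [add_sub_cancel]; exact hq)
      exact this
    have hbw : ∀ q ∈ P, ‖q - y‖ < |R2| + 20 * D → x + (q - y) ∈ P := by
      intro q hq hqx
      exact (hxy (q - y) hqx).2 (by rw [add_sub_cancel]; exact hq)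
    have hR2 : 0 ≤ |R2| := abs_nonneg _
    have hR2' : R2 ≤ |R2| := le_abs_self _
    have hp1' : y + (p1 - x) ∈ P := hfw p1 hp1 (by rw [norm_sub_rev]; linarith)
    set τ : ℤ × ℤ := Φ (y + (p1 - x)) - Φ p1 with hτ
    have hsh : ∀ q ∈ P, y + (q - x) ∈ P → Φ (y + (q - x)) = Φ q + τ := by
      intro q hq hq'
      have := hΦ (y + (q - x)) hq' (y + (p1 - x)) hp1' q hq p1 hp1 (by ring)
      rw [hτ]
      have h2 : Φ (y + (q - x)) = (Φ (y + (q - x)) - Φ (y + (p1 - x))) + Φ (y + (p1 - x)) := by abel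
      rw [h2, this]
      abel
    refine ⟨τ, ?_⟩
    intro v hv
    obtain ⟨q, hq, hqc⟩ := hcm v
    have hgq : ‖(E v + c (u Φ M '' NN P D Φ M v)) / (M : ℂ) - q‖ ≤ D := by
      have h1 : (M : ℂ) * ((E v + c (u Φ M '' NN P D Φ M v)) / (M : ℂ) - q) = - E (Φ q - v) := by
        rw [← hqc, E_sub']
        unfold u
        field_simp
        ring
      have h2 : M * ‖(E v + c (u Φ M '' NN P D Φ M v)) / (M : ℂ) - q‖ ≤ M * D := by
        calc M * ‖(E v + c (u Φ M '' NN P D Φ M v)) / (M : ℂ) - q‖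
            = ‖(M : ℂ) * ((E v + c (u Φ M '' NN P D Φ M v)) / (M : ℂ) - q)‖ := by
              rw [norm_mul, Complex.norm_real, Real.norm_of_nonneg hM0.le]
          _ = ‖E (Φ q - v)‖ := by rw [h1, norm_neg]
          _ ≤ M * D := hq.2
      exact le_of_mul_le_mul_left h2 hM0
    have hqx : ‖q - x‖ ≤ |R2| + D := by
      have : q - x = ((E v + c (u Φ M '' NN P D Φ M v)) / (M : ℂ) - x)
        - ((E v + c (u Φ M '' NN P D Φ M v)) / (M : ℂ) - q) := by ring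
      rw [this]
      refine (norm_sub_le _ _).trans ?_
      have := hv
      simp only at this
      linarith
    have hsame : ∀ w, ∀ a ∈ NN P D Φ M w, ∀ b ∈ NN P D Φ M w, ‖a - b‖ ≤ 6 * D := by
      intro w a ha b hb
      have := dist_le hD hM hη0 hη hlip ha hb
      rw [sub_self, E_zero', norm_zero] at this
      linarith
    have hmem : ∀ p ∈ NN P D Φ M v, y + (p - x) ∈ NN P D Φ M (v + τ) := by
      intro p hp
      have hpx : ‖p - x‖ < |R2| + 20 * D := by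
        have h1 := hsame v p hp q hq
        have : p - x = (p - q) + (q - x) := by ring
        rw [this]
        refine (norm_add_le _ _).trans_lt ?_
        linarith
      have hp' := hfw p hp.1 hpx
      refine ⟨hp', ?_⟩
      rw [hsh p hp.1 hp']
      have : Φ p + τ - (v + τ) = Φ p - v := by abel
      rw [this]
      exact hp.2
    have hmem' : ∀ p' ∈ NN P D Φ M (v + τ), x + (p' - y) ∈ NN P D Φ M v := by
      intro p' hp'
      have h1 := hsame (v + τ) p' hp' _ (hmem q hq)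
      have hpy : ‖p' - y‖ < |R2| + 20 * D := by
        have : p' - y = (p' - (y + (q - x))) + (q - x) := by ring
        rw [this]
        refine (norm_add_le _ _).trans_lt ?_
        linarith
      have hp := hbw p' hp'.1 hpy
      refine ⟨hp, ?_⟩
      have hback : y + (x + (p' - y) - x) = p' := by ring
      have h2 := hsh (x + (p' - y)) hp (by rw [hback]; exact hp'.1)
      rw [hback] at h2
      have h3 := hp'.2
      rw [h2] at h3
      have : Φ (x + (p' - y)) + τ - (v + τ) = Φ (x + (p' - y)) - v := by abel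
      rw [this] at h3
      exact h3
    have hu : ∀ p ∈ NN P D Φ M v, u Φ M (y + (p - x)) = u Φ M p + ((M : ℂ) * (y - x) - E τ) := by
      intro p hp
      unfold u
      rw [hsh p hp.1 (hmem p hp).1, E_add']
      ring
    have himg : u Φ M '' NN P D Φ M (v + τ)
        = (fun z => z + ((M : ℂ) * (y - x) - E τ)) '' (u Φ M '' NN P D Φ M v) := by
      ext z
      constructor
      · rintro ⟨p', hp', rfl⟩
        refine ⟨u Φ M (x + (p' - y)), ⟨_, hmem' p' hp', rfl⟩, ?_⟩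
        have := hu _ (hmem' p' hp')
        have hback : y + (x + (p' - y) - x) = p' := by ring
        rw [hback] at this
        exact this.symm
      · rintro ⟨_, ⟨p, hp, rfl⟩, rfl⟩
        exact ⟨_, hmem p hp, hu p hp⟩
    have hcc := hc' (u Φ M '' NN P D Φ M v) ((M : ℂ) * (y - x) - E τ) ((hNf v).image _)
      ((hNn v).image _)
    simp only
    rw [himg, hcc, E_add']
    field_simp
    ring

end D37
end Pool.Agent.K4H72.Til
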